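import Pool.Agent.Helper20.PC.ThmForms
import Pool.Agent.Helper20.VF.Final
import Pool.Agent.Helper20.VF.MatIneq

/-!
# No positive curvature for indefinite rank-two perturbations with a form on an even sphere

Let `k, l ≥ 2` with `l` even, let `g₁`, `g₂` be metrics on `S^k`, `S^l`, let `a (x, y)` be a `C²`
form along the first factor, `b` a `C²` one-form on `S^l` and `p`, `r`, `s` arbitrary `C²` functions
on `S^k × S^l`, with `p ≥ 0` or `a` independent of `y`.  If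
`g = g₁ + g₂ + p a ⊗ a + r (a ⊗ b + b ⊗ a) + s b ⊗ b` is positive definite then some mixed plane has
curvature `≤ 0`.
-/

open Metric Module
open scoped RealInnerProductSpace Manifold ContDiff

namespace Pool.Agent.Results.MP_4e0d62_gt.EvenSphereForm

open Pool.Agent.Helper20.PC

/-- Metrics `g₁ + g₂ + p a ⊗ a + r (a ⊗ b + b ⊗ a) + s b ⊗ b` on `S^k × S^l`, `l` even, with `b` a
one-form on `S^l`, never have positive sectional curvature. -/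
theorem result {k l : ℕ} (hk : 2 ≤ k) (hl : 2 ≤ l) (hle : Even l)
    {E₁ : Type*} [NormedAddCommGroup E₁] [InnerProductSpace ℝ E₁] [FiniteDimensional ℝ E₁]
    {E₂ : Type*} [NormedAddCommGroup E₂] [InnerProductSpace ℝ E₂] [FiniteDimensional ℝ E₂]
    [Fact (finrank ℝ E₁ = k + 1)] [Fact (finrank ℝ E₂ = l + 1)]
    (g₁ : sphere (0 : E₁) 1 → E₁ →L[ℝ] E₁ →L[ℝ] ℝ) (hg₁ : IsMetricS k g₁)
    (g₂ : sphere (0 : E₂) 1 → E₂ →L[ℝ] E₂ →L[ℝ] ℝ) (hg₂ : IsMetricS l g₂)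
    (a : sphere (0 : E₁) 1 × sphere (0 : E₂) 1 → E₁ →L[ℝ] ℝ)
    (b : sphere (0 : E₂) 1 → E₂ →L[ℝ] ℝ)
    (p r s : sphere (0 : E₁) 1 × sphere (0 : E₂) 1 → ℝ)
    (hd : IsTwoData k l a (fun q => b q.2) p r s)
    (hpa : (∀ q, 0 ≤ p q) ∨ ∀ x y y', a (x, y) = a (x, y'))
    (hpos : ∀ q : sphere (0 : E₁) 1 × sphere (0 : E₂) 1, ∀ u : E₁ × E₂, ⟪(q.1 : E₁), u.1⟫ = 0 →
      ⟪(q.2 : E₂), u.2⟫ = 0 → u ≠ 0 →
      0 < twoMetric (fun q => g₁ q.1) g₂ a (fun q => b q.2) p r s q u u) :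
    ∃ x : sphere (0 : E₁) 1, ∃ y : sphere (0 : E₂) 1, ∃ X : E₁, ∃ V : E₂, ⟪(x : E₁), X⟫ = 0 ∧
      ⟪(y : E₂), V⟫ = 0 ∧ X ≠ 0 ∧ V ≠ 0 ∧
      sectional (twoMetric (fun q => g₁ q.1) g₂ a (fun q => b q.2) p r s) (x, y) (X, 0) (0, V) ≤ 0 :=
  thmForms hk hl hle hg₁ hg₂ hd hpa hpos

end Pool.Agent.Results.MP_4e0d62_gt.EvenSphereForm
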