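import Pool.Agent.Helper20.PC.ThmTwo

/-!
# Graph hypersurfaces over `S^k × S^l` are not positively curved

Let `k, l ≥ 2`, let `g₁` be a `C²` metric on `S^k`, let `h_t`, `t ∈ J`, be a `C²` family of metrics
on `S^l` (`J ⊆ ℝ` open) and let `ρ : S^k × S^l → J` be `C³`.  The graph
`{(x, ρ(x,y), y)}` in the Riemannian product of `(S^k, g₁)` and `(J × S^l, dt² + h_t)`, with the
induced metric `g₁ + h_ρ + dρ ⊗ dρ` on `S^k × S^l`, does not have positive sectional curvature: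
for every `y ∈ S^l` some mixed plane at some point `(x,y)` has `K ≤ 0`.
-/

open Metric Module
open scoped RealInnerProductSpace Manifold ContDiff

namespace Pool.Agent.Results.MP_4e0d62_gt.GraphHypersurface

open Pool.Agent.Helper20.PC

/-- Graph hypersurfaces `t = ρ(x,y)` in `(S^k, g₁) × (J × S^l, dt² + h_t)`, `k, l ≥ 2`, never have
positive sectional curvature. -/
theorem result {k l : ℕ} (hk : 2 ≤ k) (hl : 2 ≤ l)
    {E₁ : Type*} [NormedAddCommGroup E₁] [InnerProductSpace ℝ E₁] [FiniteDimensional ℝ E₁]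
    {E₂ : Type*} [NormedAddCommGroup E₂] [InnerProductSpace ℝ E₂] [FiniteDimensional ℝ E₂]
    [Fact (finrank ℝ E₁ = k + 1)] [Fact (finrank ℝ E₂ = l + 1)]
    (g₁ : sphere (0 : E₁) 1 → E₁ →L[ℝ] E₁ →L[ℝ] ℝ) (hg₁ : IsMetricS k g₁)
    (J : Set ℝ) (hJ : IsOpen J)
    (h : ℝ → sphere (0 : E₂) 1 → E₂ →L[ℝ] E₂ →L[ℝ] ℝ) (hh : IsFamilyS l J h)
    (ρ : sphere (0 : E₁) 1 × sphere (0 : E₂) 1 → ℝ)
    (hρ : ContMDiff ((𝓡 k).prod (𝓡 l)) 𝓘(ℝ, ℝ) 3 ρ) (hρJ : ∀ p, ρ p ∈ J)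
    (y : sphere (0 : E₂) 1) :
    ∃ x : sphere (0 : E₁) 1, ∃ X : E₁, ∃ V : E₂, ⟪(x : E₁), X⟫ = 0 ∧ ⟪(y : E₂), V⟫ = 0 ∧
      X ≠ 0 ∧ V ≠ 0 ∧ sectional (graphMetric g₁ h ρ) (x, y) (X, 0) (0, V) ≤ 0 :=
  thmTwo hk hl hg₁ hJ hh hρ hρJ y

end Pool.Agent.Results.MP_4e0d62_gt.GraphHypersurface
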