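import Pool.Agent.Helper20.PC.ThmFour

/-!
# No positive curvature for `g₁ + g₂ + 2 d₁ d₂ F` on `S^k × S^l`

For `C²` metrics `g₁` on `S^k` and `g₂` on `S^l` and a `C⁴` function `F` on `S^k × S^l` let
`g = g₁ + g₂ + 2 d₁ d₂ F`, that is `g ((X,V),(X',V')) = g₁ (X,X') + g₂ (V,V') + X V' F + X' V F`.
If `g` is positive definite, then for every nonzero vector `V` tangent to `S^l` at a point `y` there
is a point `x ∈ S^k` such that at `(x, y)` all the planes spanned by `(0, V)` and vectors `(X, 0)`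
have curvature `≤ 0`.
-/

open Metric Module
open scoped RealInnerProductSpace Manifold ContDiff

namespace Pool.Agent.Results.MP_4e0d62_gt.MixedHessian

open Pool.Agent.Helper20.PC

/-- Metrics `g₁ + g₂ + 2 d₁ d₂ F` on `S^k × S^l` never have positive sectional curvature. -/
theorem result {k l : ℕ}
    {E₁ : Type*} [NormedAddCommGroup E₁] [InnerProductSpace ℝ E₁] [FiniteDimensional ℝ E₁]
    {E₂ : Type*} [NormedAddCommGroup E₂] [InnerProductSpace ℝ E₂] [FiniteDimensional ℝ E₂]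
    [Fact (finrank ℝ E₁ = k + 1)] [Fact (finrank ℝ E₂ = l + 1)]
    (g₁ : sphere (0 : E₁) 1 → E₁ →L[ℝ] E₁ →L[ℝ] ℝ) (hg₁ : IsMetricS k g₁)
    (g₂ : sphere (0 : E₂) 1 → E₂ →L[ℝ] E₂ →L[ℝ] ℝ) (hg₂ : IsMetricS l g₂)
    (F : sphere (0 : E₁) 1 × sphere (0 : E₂) 1 → ℝ)
    (hF : ContMDiff ((𝓡 k).prod (𝓡 l)) 𝓘(ℝ, ℝ) 4 F)
    (hpos : ∀ p : sphere (0 : E₁) 1 × sphere (0 : E₂) 1, ∀ u : E₁ × E₂, ⟪(p.1 : E₁), u.1⟫ = 0 →
      ⟪(p.2 : E₂), u.2⟫ = 0 → u ≠ 0 → 0 < mixedMetric g₁ g₂ F p u u)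
    (y : sphere (0 : E₂) 1) (V : E₂) (_hVy : ⟪(y : E₂), V⟫ = 0) (hV : V ≠ 0) :
    ∃ x : sphere (0 : E₁) 1, ∀ X : E₁, ⟪(x : E₁), X⟫ = 0 → X ≠ 0 →
      sectional (mixedMetric g₁ g₂ F) (x, y) (X, 0) (0, V) ≤ 0 := by
  obtain ⟨x, hx⟩ := thmFour hg₁ hg₂ hF hpos y V hV
  exact ⟨x, fun X _ hX => hx X hX⟩

end Pool.Agent.Results.MP_4e0d62_gt.MixedHessian
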