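import Pool.Agent.Helper20.PC.ThmRankTwo

/-!
# No positive curvature for rank-two perturbations of product and warped metrics on `S^k × S^l`

Let `k, l ≥ 2`, let `h (x, y)` be a `C²` family of inner products on `T_x S^k`, let `g₂` be a metric
on `S^l`, let `a (x, y)` and `b (x, y)` be arbitrary `C²` forms along the first and the second
factor and let `p`, `r`, `s` be `C²` functions on `S^k × S^l` with `p, s ≥ 0` and `r² ≤ p s`.  If
`h (x, y₀) ≤ h (x, y)` for all `x`, `y` then some mixed plane at some point `(x, y₀)` has curvature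
`≤ 0` for the metric `h + g₂ + p a ⊗ a + r (a ⊗ b + b ⊗ a) + s b ⊗ b` on `S^k × S^l`.

The hypothesis on `h` holds for every `y₀` if `h (x, y) = g₁ (x)`, and for the minimum points `y₀`
of `f` if `h (x, y) = f (y)² g₁ (x)`.
-/

open Metric Module
open scoped RealInnerProductSpace Manifold ContDiff

namespace Pool.Agent.Results.MP_4e0d62_gt.RankTwoTwisted

open Pool.Agent.Helper20.PC

/-- Metrics `h + g₂ + p a ⊗ a + r (a ⊗ b + b ⊗ a) + s b ⊗ b` with a positive semidefinite last part,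
over a family `h` with a minimal slice, never have positive sectional curvature. -/
theorem result {k l : ℕ} (hk : 2 ≤ k) (hl : 2 ≤ l)
    {E₁ : Type*} [NormedAddCommGroup E₁] [InnerProductSpace ℝ E₁] [FiniteDimensional ℝ E₁]
    {E₂ : Type*} [NormedAddCommGroup E₂] [InnerProductSpace ℝ E₂] [FiniteDimensional ℝ E₂]
    [Fact (finrank ℝ E₁ = k + 1)] [Fact (finrank ℝ E₂ = l + 1)]
    (h : sphere (0 : E₁) 1 × sphere (0 : E₂) 1 → E₁ →L[ℝ] E₁ →L[ℝ] ℝ) (hh : IsFamilySS k l h)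
    (g₂ : sphere (0 : E₂) 1 → E₂ →L[ℝ] E₂ →L[ℝ] ℝ) (hg₂ : IsMetricS l g₂)
    (a : sphere (0 : E₁) 1 × sphere (0 : E₂) 1 → E₁ →L[ℝ] ℝ)
    (b : sphere (0 : E₁) 1 × sphere (0 : E₂) 1 → E₂ →L[ℝ] ℝ)
    (p r s : sphere (0 : E₁) 1 × sphere (0 : E₂) 1 → ℝ)
    (hd : IsTwoData k l a b p r s) (hpsd : IsPsd p r s)
    (y₀ : sphere (0 : E₂) 1)
    (hmin : ∀ x : sphere (0 : E₁) 1, ∀ y : sphere (0 : E₂) 1, ∀ X : E₁, ⟪(x : E₁), X⟫ = 0 →
      h (x, y₀) X X ≤ h (x, y) X X) :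
    ∃ x : sphere (0 : E₁) 1, ∃ X : E₁, ∃ V : E₂, ⟪(x : E₁), X⟫ = 0 ∧ ⟪(y₀ : E₂), V⟫ = 0 ∧
      X ≠ 0 ∧ V ≠ 0 ∧ sectional (twoMetric h g₂ a b p r s) (x, y₀) (X, 0) (0, V) ≤ 0 :=
  thmRankTwo hk hl hh hg₂ hd hpsd y₀ hmin

end Pool.Agent.Results.MP_4e0d62_gt.RankTwoTwisted
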